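import Mathlib

set_option linter.dupNamespace false

namespace Pool.Agent.H.MP_cc6759_lc

open Finset Module

variable {R : Type*} [CommRing R] {d : ℕ} (b : Basis (Fin d) ℤ R)

/-- sup norm of the coordinates -/
noncomputable def H (x : R) : ℕ := univ.sup (fun i => (b.repr x i).natAbs)

lemma H_le_iff (x : R) (B : ℕ) : H b x ≤ B ↔ ∀ i, (b.repr x i).natAbs ≤ B := by
  simp [H, Finset.sup_le_iff]

lemma le_H (x : R) (i : Fin d) : (b.repr x i).natAbs ≤ H b x :=
  (H_le_iff b x _).1 le_rfl i

lemma H_add (x y : R) : H b (x + y) ≤ H b x + H b y := by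
  rw [H_le_iff]; intro i
  have h1 := le_H b x i
  have h2 := le_H b y i
  simp only [map_add, Finsupp.add_apply]
  omega

lemma H_sub (x y : R) : H b (x - y) ≤ H b x + H b y := by
  rw [H_le_iff]; intro i
  have h1 := le_H b x i
  have h2 := le_H b y i
  simp only [map_sub, Finsupp.sub_apply]
  omega

lemma H_zero : H b (0 : R) = 0 := by
  apply Nat.eq_zero_of_le_zero
  rw [H_le_iff]; intro i; simp

lemma H_eq_zero {x : R} (h : H b x = 0) : x = 0 := by
  apply b.repr.injective
  ext i
  have := le_H b x i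
  simp only [map_zero, Finsupp.zero_apply]
  omega

lemma H_pos {x : R} (h : x ≠ 0) : 1 ≤ H b x := by
  by_contra h'
  exact h (H_eq_zero b (by omega))

lemma H_smul_le (m : ℤ) (x : R) : H b (m • x) ≤ m.natAbs * H b x := by
  rw [H_le_iff]; intro i
  simp only [map_smul, Finsupp.smul_apply, smul_eq_mul, Int.natAbs_mul]
  exact Nat.mul_le_mul_left _ (le_H b x i)

lemma H_of_smul (m : ℕ) (hm : 0 < m) (x : R) (B : ℕ) (h : H b ((m : R) * x) ≤ m * B) :
    H b x ≤ B := by
  rw [H_le_iff] at h ⊢
  intro i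
  have h1 := h i
  have e : (m : R) * x = (m : ℤ) • x := by simp
  rw [e] at h1
  simp only [map_smul, Finsupp.smul_apply, smul_eq_mul, Int.natAbs_mul, Int.natAbs_natCast] at h1
  exact Nat.le_of_mul_le_mul_left h1 hm

lemma H_sum {ι : Type*} (s : Finset ι) (f : ι → R) : H b (∑ i ∈ s, f i) ≤ ∑ i ∈ s, H b (f i) := by
  classical
  induction s using Finset.induction_on with
  | empty => simp [H_zero]
  | insert a s ha ih =>
    rw [sum_insert ha, sum_insert ha]
    exact (H_add b _ _).trans (by omega)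

lemma exists_K : ∃ K : ℕ, 1 ≤ K ∧ ∀ x y : R, H b (x * y) ≤ K * H b x * H b y := by
  refine ⟨1 + ∑ i : Fin d, ∑ j : Fin d, H b (b i * b j), by omega, fun x y => ?_⟩
  have e : x * y = ∑ i : Fin d, ∑ j : Fin d, (b.repr x i * b.repr y j) • (b i * b j) := by
    conv_lhs => rw [← b.sum_repr x, ← b.sum_repr y]
    rw [Finset.sum_mul_sum]
    refine sum_congr rfl fun i _ => sum_congr rfl fun j _ => ?_
    rw [smul_mul_smul_comm]
  rw [e]
  refine (H_sum b _ _).trans ?_
  calc ∑ i : Fin d, H b (∑ j : Fin d, (b.repr x i * b.repr y j) • (b i * b j))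
      ≤ ∑ i : Fin d, ∑ j : Fin d, H b (b i * b j) * (H b x * H b y) := by
        refine sum_le_sum fun i _ => (H_sum b _ _).trans (sum_le_sum fun j _ => ?_)
        refine (H_smul_le b _ _).trans ?_
        rw [Int.natAbs_mul, mul_comm]
        exact Nat.mul_le_mul_left _ (Nat.mul_le_mul (le_H b x i) (le_H b y j))
    _ = (∑ i : Fin d, ∑ j : Fin d, H b (b i * b j)) * (H b x * H b y) := by
        simp [Finset.sum_mul]
    _ ≤ _ := by
        rw [mul_assoc]
        exact Nat.mul_le_mul_right _ (by omega)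

lemma div_int (x : R) (m : ℕ) (hm : 0 < m) : ∃ q r : R, x = (m : R) * q + r ∧ H b r ≤ m := by
  refine ⟨∑ i, (b.repr x i / m) • b i, ∑ i, (b.repr x i % m) • b i, ?_, ?_⟩
  · conv_lhs => rw [← b.sum_repr x]
    rw [Finset.mul_sum, ← sum_add_distrib]
    refine sum_congr rfl fun i _ => ?_
    have e : (m : R) * ((b.repr x i / m) • b i) = ((m : ℤ) * (b.repr x i / m)) • b i := by
      rw [mul_smul]; simp
    rw [e, ← add_smul, Int.mul_ediv_add_emod]
  · rw [H_le_iff]; intro i
    have : b.repr (∑ i, (b.repr x i % m) • b i) i = b.repr x i % m := by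
      rw [b.repr_sum_self]
    rw [this]
    have h1 := Int.emod_nonneg (b.repr x i) (show (m : ℤ) ≠ 0 by omega)
    have h2 := Int.emod_lt_of_pos (b.repr x i) (show (0 : ℤ) < m by omega)
    omega

include b in
lemma exists_norm [IsDomain R] {g : R} (hg : g ≠ 0) : ∃ (g' : R) (m : ℕ), 0 < m ∧ g * g' = m := by
  have : Module.Finite ℤ R := Module.Finite.of_basis b
  have halg : IsAlgebraic ℤ g := Algebra.IsAlgebraic.isAlgebraic g
  obtain ⟨r, hr, g', e⟩ := halg.exists_nonzero_dvd (mem_nonZeroDivisors_of_ne_zero hg)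
  rcases lt_or_gt_of_ne hr with h | h
  · refine ⟨-g', r.natAbs, by omega, ?_⟩
    have : ((r.natAbs : ℤ) : R) = - (r : R) := by
      rw [show (r.natAbs : ℤ) = -r by omega]; simp
    rw [mul_neg, ← e]
    simpa using this.symm
  · refine ⟨g', r.natAbs, by omega, ?_⟩
    have : ((r.natAbs : ℤ) : R) = (r : R) := by
      rw [show (r.natAbs : ℤ) = r by omega]
    rw [← e]
    simpa using this.symm

lemma red1 [IsDomain R] {K : ℕ} (hK : ∀ x y : R, H b (x * y) ≤ K * H b x * H b y)
    {g : R} (hg : g ≠ 0) (w : R) : ∃ q : R, H b (w - q * g) ≤ K * H b g := by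
  obtain ⟨g', m, hm, e⟩ := exists_norm b hg
  obtain ⟨q, r, e2, hr⟩ := div_int b (w * g') m hm
  refine ⟨q, H_of_smul b m hm _ _ ?_⟩
  have : (m : R) * (w - q * g) = r * g := by
    have : w * (m : R) = (m * q + r) * g := by rw [← e2, ← e]; ring
    linear_combination this
  rw [this]
  refine (hK _ _).trans ?_
  calc K * H b r * H b g ≤ K * m * H b g := by gcongr
    _ = m * (K * H b g) := by ring

/-- the box -/
noncomputable def box (B : ℕ) : Finset R :=
  (Fintype.piFinset (fun _ : Fin d => Finset.Icc (-(B : ℤ)) B)).map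
    ⟨fun u => b.equivFun.symm u, b.equivFun.symm.injective⟩

lemma mem_box (x : R) (B : ℕ) : x ∈ box b B ↔ H b x ≤ B := by
  rw [H_le_iff, box, Finset.mem_map]
  constructor
  · rintro ⟨u, hu, rfl⟩ i
    rw [Fintype.mem_piFinset] at hu
    have := hu i
    rw [Finset.mem_Icc] at this
    have e : b.repr (b.equivFun.symm u) i = u i := by
      rw [← Basis.equivFun_apply, LinearEquiv.apply_symm_apply]
    simp only [Function.Embedding.coeFn_mk]
    rw [e]; omega
  · intro h
    refine ⟨b.equivFun x, ?_, b.equivFun.symm_apply_apply x⟩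
    rw [Fintype.mem_piFinset]
    intro i
    have := h i
    rw [Finset.mem_Icc, Basis.equivFun_apply]
    omega

lemma card_box (B : ℕ) : (box b B).card = (2 * B + 1) ^ d := by
  rw [box, card_map, Fintype.card_piFinset]
  simp only [Int.card_Icc, prod_const, card_univ, Fintype.card_fin]
  congr 1
  omega

/-- reduction modulo `k` in a group of rank at most `d` -/
lemma modk {M : Type*} [AddCommGroup M] (j : M →ₗ[ℤ] R) (hj : Function.Injective j)
    (b : Basis (Fin d) ℤ R) (k : ℕ) (hk : 0 < k) (W : Finset M) (hW : k ^ d < W.card) :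
    ∃ x ∈ W, ∃ y ∈ W, x ≠ y ∧ ∃ z : M, x - y = (k : ℤ) • z := by
  have : Module.Finite ℤ R := Module.Finite.of_basis b
  have : Module.Free ℤ R := Module.Free.of_basis b
  have : Module.Finite ℤ M := Module.Finite.of_injective j hj
  have : Module.IsTorsionFree ℤ M := Function.Injective.moduleIsTorsionFree j hj (by simp)
  have : NeZero k := ⟨by omega⟩
  have hr : Module.finrank ℤ M ≤ d := by
    have := LinearMap.finrank_le_finrank_of_injective hj
    rwa [Module.finrank_eq_card_basis b, Fintype.card_fin] at this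
  let c := Module.finBasis ℤ M
  have hlt : (univ : Finset (Fin (Module.finrank ℤ M) → ZMod k)).card < W.card := by
    simp only [card_univ, Fintype.card_pi, ZMod.card, prod_const, Fintype.card_fin]
    exact lt_of_le_of_lt (Nat.pow_le_pow_right hk hr) hW
  obtain ⟨x, hx, y, hy, hxy, e⟩ := Finset.exists_ne_map_eq_of_card_lt_of_maps_to hlt
    (f := fun x i => ((c.repr x i : ℤ) : ZMod k)) (fun _ _ => by simp)
  refine ⟨x, hx, y, hy, hxy, ∑ i, ((c.repr x i - c.repr y i) / k) • c i, ?_⟩
  apply c.repr.injective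
  ext i
  have h1 : (k : ℤ) ∣ c.repr x i - c.repr y i := by
    have := congrFun e i
    exact (ZMod.intCast_eq_intCast_iff_dvd_sub _ _ _).1 this.symm
  rw [map_smul, Finsupp.smul_apply, c.repr_sum_self, map_sub, Finsupp.sub_apply, smul_eq_mul,
    Int.mul_ediv_cancel' h1]

end Pool.Agent.H.MP_cc6759_lc
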