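import Pool.Agent.H.MP_cc6759_lc.A

set_option linter.dupNamespace false

namespace Pool.Agent.H.MP_cc6759_lc

open Finset Module

variable {R : Type*} [CommRing R] {d : ℕ} (b : Basis (Fin d) ℤ R)

/-- value of a digit string -/
def val (p : R) {N n : ℕ} (a : Fin n → Fin N) : R := ∑ i, ((a i : ℕ) : R) * p ^ (i : ℕ)

lemma val_succ (p : R) {N n : ℕ} (a : Fin (n + 1) → Fin N) :
    val p a = ((a 0 : ℕ) : R) + p * val p (fun i : Fin n => a i.succ) := by
  unfold val
  rw [Fin.sum_univ_succ, Finset.mul_sum]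
  simp only [Fin.val_zero, pow_zero, mul_one, Fin.val_succ]
  congr 1
  refine sum_congr rfl fun i _ => ?_
  ring

lemma val_inj [IsDomain R] {p : R} (hp : p ≠ 0) {N : ℕ}
    (hdiv : ∀ m : ℤ, p ∣ (m : R) → (N : ℤ) ∣ m) :
    ∀ {n : ℕ} (a a' : Fin n → Fin N), p ^ n ∣ val p a - val p a' → a = a' := by
  intro n
  induction n with
  | zero => intro a a' _; exact Subsingleton.elim _ _
  | succ n ih =>
    intro a a' h
    rw [val_succ, val_succ] at h
    have h0 : a 0 = a' 0 := by
      have h1 : p ∣ ((((a 0 : ℕ) : ℤ) - ((a' 0 : ℕ) : ℤ) : ℤ) : R) := by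
        have h2 : p ∣ _ := (dvd_pow_self p (Nat.succ_ne_zero n)).trans h
        have h3 : p ∣ p * (val p (fun i : Fin n => a i.succ) - val p (fun i : Fin n => a' i.succ)) :=
          dvd_mul_right _ _
        have := dvd_sub h2 h3
        convert this using 1
        push_cast; ring
      obtain ⟨c, hc⟩ := hdiv _ h1
      have l1 := (a 0).2
      have l2 := (a' 0).2
      have : c = 0 := by
        by_contra hc0
        rcases lt_or_gt_of_ne hc0 with h5 | h5 <;> nlinarith
      apply Fin.ext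
      rw [this] at hc
      omega
    have h1 : (fun i : Fin n => a i.succ) = fun i : Fin n => a' i.succ := by
      apply ih
      rw [h0, pow_succ'] at h
      have : ((a' 0 : ℕ) : R) + p * val p (fun i : Fin n => a i.succ) -
          (((a' 0 : ℕ) : R) + p * val p (fun i : Fin n => a' i.succ)) =
          p * (val p (fun i : Fin n => a i.succ) - val p (fun i : Fin n => a' i.succ)) := by ring
      rw [this] at h
      exact (mul_dvd_mul_iff_left hp).1 h
    funext i
    refine Fin.cases h0 (fun j => congrFun h1 j) i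

lemma val_surj {p : R} {N : ℕ} (hres : ∀ x : R, ∃ c : Fin N, p ∣ x - ((c : ℕ) : R)) :
    ∀ (n : ℕ) (x : R), ∃ a : Fin n → Fin N, p ^ n ∣ x - val p a := by
  intro n
  induction n with
  | zero => intro x; exact ⟨Fin.elim0, by simp⟩
  | succ n ih =>
    intro x
    obtain ⟨c, y, hy⟩ := hres x
    obtain ⟨a, z, hz⟩ := ih y
    refine ⟨Fin.cons c a, z, ?_⟩
    rw [val_succ]
    simp only [Fin.cons_zero, Fin.cons_succ]
    have : (fun i : Fin n => a i) = a := rfl
    rw [this, pow_succ']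
    linear_combination hy + p * hz

/-- standing assumptions -/
structure Hyp (p : R) (N K : ℕ) : Prop where
  hp : p ≠ 0
  hdiv : ∀ m : ℤ, p ∣ (m : R) → (N : ℤ) ∣ m
  hres : ∀ x : R, ∃ c : Fin N, p ∣ x - ((c : ℕ) : R)
  hK1 : 1 ≤ K
  hK : ∀ x y : R, H b (x * y) ≤ K * H b x * H b y

open Classical in
lemma count_g [IsDomain R] {p : R} {N K : ℕ} (h : Hyp b p N K) (hN : 0 < N) (n B : ℕ) {g : R}
    (hg : g ≠ 0) (hgB : H b g ≤ B) :
    (univ.filter (fun a : Fin n → Fin N => ∃ f, H b f ≤ B ∧ p ^ n ∣ f - g * val p a)).card ≤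
      (2 * ((K + 1) * B) + 1) ^ d := by
  set A := univ.filter (fun a : Fin n → Fin N => ∃ f, H b f ≤ B ∧ p ^ n ∣ f - g * val p a) with hA
  choose q hq using red1 b h.hK hg
  choose dig hdig using val_surj h.hres n
  have hf : ∀ a : Fin n → Fin N, ∃ f, a ∈ A → H b f ≤ B ∧ p ^ n ∣ f - g * val p a := by
    intro a
    by_cases ha : a ∈ A
    · obtain ⟨f, hf⟩ := (mem_filter.1 ha).2
      exact ⟨f, fun _ => hf⟩
    · exact ⟨0, fun h => absurd h ha⟩
  choose f hf using hf
  have key : (A ×ˢ (univ : Finset (Fin n → Fin N))).card ≤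
      (box b ((K + 1) * B) ×ˢ (univ : Finset (Fin n → Fin N))).card := by
    apply Finset.card_le_card_of_injOn
      (fun x => (val p x.2 - q (val p x.2) * g - f x.1, dig (q (val p x.2) + val p x.1)))
    · intro x hx
      rw [Finset.mem_coe, mem_product] at hx
      rw [Finset.mem_coe, mem_product]
      refine ⟨?_, mem_univ _⟩
      rw [mem_box]
      refine (H_sub b _ _).trans ?_
      have h1 := hq (val p x.2)
      have h2 := (hf x.1 hx.1).1
      have h3 : K * H b g ≤ K * B := Nat.mul_le_mul_left _ hgB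
      nlinarith
    · intro x hx y hy e
      rw [Finset.mem_coe, mem_product] at hx hy
      simp only [Prod.mk.injEq] at e
      obtain ⟨e1, e2⟩ := e
      obtain ⟨c1, h1⟩ := hdig (q (val p x.2) + val p x.1)
      obtain ⟨c2, h2⟩ := hdig (q (val p y.2) + val p y.1)
      obtain ⟨c3, h3⟩ := (hf x.1 hx.1).2
      obtain ⟨c4, h4⟩ := (hf y.1 hy.1).2
      rw [e2] at h1
      have hw : x.2 = y.2 := by
        apply val_inj h.hp h.hdiv
        refine ⟨(c1 - c2) * g + c3 - c4, ?_⟩
        linear_combination e1 + g * h1 - g * h2 + h3 - h4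
      have ha : x.1 = y.1 := by
        apply val_inj h.hp h.hdiv
        refine ⟨c1 - c2, ?_⟩
        rw [hw] at h1
        linear_combination h1 - h2
      exact Prod.ext ha hw
  rw [card_product, card_product, card_box] at key
  have hpos : 0 < (univ : Finset (Fin n → Fin N)).card := by
    rw [card_univ, Fintype.card_pi]
    simp only [Fintype.card_fin, prod_const, card_univ]
    positivity
  exact Nat.le_of_mul_le_mul_right key hpos

/-- digit strings whose lattice has a short nonzero vector -/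
def Bad (p : R) {N n : ℕ} (B : ℕ) (a : Fin n → Fin N) : Prop :=
  ∃ f g : R, (f ≠ 0 ∨ g ≠ 0) ∧ H b f ≤ B ∧ H b g ≤ B ∧ p ^ n ∣ f - g * val p a

open Classical in
lemma card_bad [IsDomain R] {p : R} {N K : ℕ} (h : Hyp b p N K) (hN : 0 < N) (n B : ℕ) :
    (univ.filter (fun a : Fin n → Fin N => Bad b p B a)).card ≤ ((2 * K + 3) * B) ^ (2 * d) := by
  have hK1 := h.hK1
  rcases Nat.eq_zero_or_pos B with rfl | hB
  · have : univ.filter (fun a : Fin n → Fin N => Bad b p 0 a) = ∅ := by
      rw [Finset.filter_eq_empty_iff]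
      rintro a _ ⟨f, g, h0, h1, h2, _⟩
      rcases h0 with h0 | h0
      · exact h0 (H_eq_zero b (by omega))
      · exact h0 (H_eq_zero b (by omega))
    rw [this]; simp
  have e2 : ((2 * K + 3) * B) ^ (2 * d) = ((2 * K + 3) * B) ^ d * ((2 * K + 3) * B) ^ d := by
    rw [two_mul d, pow_add]
  by_cases hc : ∃ f : R, f ≠ 0 ∧ H b f ≤ B ∧ p ^ n ∣ f
  · obtain ⟨f, hf0, hfB, c, hc⟩ := hc
    choose q hq using red1 b h.hK hf0
    have : (univ : Finset (Fin n → Fin N)).card ≤ (box b (K * B)).card := by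
      apply Finset.card_le_card_of_injOn (fun a => val p a - q (val p a) * f)
      · intro a _
        rw [Finset.mem_coe, mem_box]
        exact (hq _).trans (Nat.mul_le_mul_left _ hfB)
      · intro a _ a' _ e
        apply val_inj h.hp h.hdiv
        refine ⟨(q (val p a) - q (val p a')) * c, ?_⟩
        simp only at e
        linear_combination e + (q (val p a) - q (val p a')) * hc
    rw [card_box] at this
    refine (card_filter_le _ _).trans (this.trans ?_)
    rw [e2]
    calc (2 * (K * B) + 1) ^ d ≤ ((2 * K + 3) * B) ^ d := Nat.pow_le_pow_left (by nlinarith) _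
      _ ≤ _ := Nat.le_mul_of_pos_right _ (by positivity)
  · have hsub : univ.filter (fun a : Fin n → Fin N => Bad b p B a) ⊆
        ((box b B).filter (· ≠ 0)).biUnion (fun g => univ.filter
          (fun a : Fin n → Fin N => ∃ f, H b f ≤ B ∧ p ^ n ∣ f - g * val p a)) := by
      intro a ha
      obtain ⟨f, g, h0, h1, h2, h3⟩ := (mem_filter.1 ha).2
      have hg : g ≠ 0 := by
        rintro rfl
        apply hc
        refine ⟨f, by simpa using h0, h1, by simpa using h3⟩
      rw [mem_biUnion]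
      exact ⟨g, mem_filter.2 ⟨(mem_box b _ _).2 h2, hg⟩, mem_filter.2 ⟨mem_univ _, f, h1, h3⟩⟩
    refine (card_le_card hsub).trans (card_biUnion_le_card_mul _ _ ((2 * ((K + 1) * B) + 1) ^ d)
      ?_ |>.trans ?_)
    · intro g hg
      rw [mem_filter, mem_box] at hg
      exact count_g b h hN n B hg.2 hg.1
    · rw [e2]
      refine Nat.mul_le_mul ((card_filter_le _ _).trans ?_) (Nat.pow_le_pow_left (by nlinarith) _)
      rw [card_box]
      exact Nat.pow_le_pow_left (by nlinarith) _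

lemma red2 [IsDomain R] {p : R} {N K : ℕ} (h : Hyp b p N K) {f1 g1 f2 g2 : R} {B : ℕ}
    (hD : f1 * g2 - f2 * g1 ≠ 0) (h1 : H b f1 ≤ B) (h2 : H b g1 ≤ B) (h3 : H b f2 ≤ B)
    (h4 : H b g2 ≤ B) (f0 g0 : R) : ∃ q1 q2 : R,
      H b (f0 - p * q1 * f1 - p * q2 * f2) ≤ 2 * K * K * H b p * B ∧
      H b (g0 - p * q1 * g1 - p * q2 * g2) ≤ 2 * K * K * H b p * B := by
  obtain ⟨D, m, hm, e⟩ := exists_norm b (mul_ne_zero h.hp hD)
  obtain ⟨q1, r1, e1, hr1⟩ := div_int b (D * (f0 * g2 - f2 * g0)) m hm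
  obtain ⟨q2, r2, e2, hr2⟩ := div_int b (D * (f1 * g0 - f0 * g1)) m hm
  have aux : ∀ x y : R, H b x ≤ B → H b y ≤ B →
      H b (p * (r1 * x + r2 * y)) ≤ m * (2 * K * K * H b p * B) := by
    intro x y hx hy
    have a1 : H b (r1 * x) ≤ K * m * B := (h.hK _ _).trans (by gcongr)
    have a2 : H b (r2 * y) ≤ K * m * B := (h.hK _ _).trans (by gcongr)
    have a3 : H b (r1 * x + r2 * y) ≤ 2 * (K * m * B) := (H_add b _ _).trans (by omega)
    calc H b (p * (r1 * x + r2 * y)) ≤ K * H b p * H b (r1 * x + r2 * y) := h.hK _ _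
      _ ≤ K * H b p * (2 * (K * m * B)) := by gcongr
      _ = _ := by ring
  refine ⟨q1, q2, H_of_smul b m hm _ _ ?_, H_of_smul b m hm _ _ ?_⟩
  · have : (m : R) * (f0 - p * q1 * f1 - p * q2 * f2) = p * (r1 * f1 + r2 * f2) := by
      linear_combination (-f0) * e + p * f1 * e1 + p * f2 * e2
    rw [this]; exact aux _ _ h1 h3
  · have : (m : R) * (g0 - p * q1 * g1 - p * q2 * g2) = p * (r1 * g1 + r2 * g2) := by
      linear_combination (-g0) * e + p * g1 * e1 + p * g2 * e2
    rw [this]; exact aux _ _ h2 h4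

open Classical in
lemma dichotomy [IsDomain R] {p : R} {N K : ℕ} (h : Hyp b p N K) {n : ℕ} (a : Fin n → Fin N)
    (B k : ℕ) (hk : 0 < k) (hlt : N ^ n * k ^ d < (2 * B + 1) ^ (2 * d)) :
    (∃ f g : R, p ∣ g - 1 ∧ p ^ n ∣ f - g * val p a ∧ H b f ≤ 4 * K * K * H b p * B ∧
      H b g ≤ 4 * K * K * H b p * B) ∨ Bad b p (2 * B / k) a := by
  choose dig hdig using val_surj h.hres n
  have hc : (univ : Finset (Fin n → Fin N)).card * k ^ d < (box b B ×ˢ box b B).card := by
    rw [card_product, card_box, ← pow_add, ← two_mul, card_univ, Fintype.card_pi]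
    simpa using hlt
  obtain ⟨y, -, hy⟩ := Finset.exists_lt_card_fiber_of_mul_lt_card_of_maps_to
    (f := fun x : R × R => dig (x.1 - x.2 * val p a)) (fun _ _ => mem_univ _) hc
  set W := (box b B ×ˢ box b B).filter (fun x : R × R => dig (x.1 - x.2 * val p a) = y) with hW
  have hWB : ∀ x ∈ W, H b x.1 ≤ B ∧ H b x.2 ≤ B := by
    intro x hx
    have := mem_product.1 (mem_filter.1 hx).1
    exact ⟨(mem_box b _ _).1 this.1, (mem_box b _ _).1 this.2⟩
  have hdiffH : ∀ x ∈ W, ∀ x' ∈ W, H b (x.1 - x'.1) ≤ 2 * B ∧ H b (x.2 - x'.2) ≤ 2 * B := by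
    intro x hx x' hx'
    have a1 := hWB x hx
    have a2 := hWB x' hx'
    exact ⟨(H_sub b _ _).trans (by omega), (H_sub b _ _).trans (by omega)⟩
  have hdiffL : ∀ x ∈ W, ∀ x' ∈ W, p ^ n ∣ (x.1 - x'.1) - (x.2 - x'.2) * val p a := by
    intro x hx x' hx'
    have a1 := hdig (x.1 - x.2 * val p a)
    have a2 := hdig (x'.1 - x'.2 * val p a)
    rw [(mem_filter.1 hx).2] at a1
    rw [(mem_filter.1 hx').2] at a2
    convert dvd_sub a1 a2 using 1
    ring
  have hW1 : 1 < W.card := lt_of_le_of_lt (Nat.one_le_pow _ _ hk) hy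
  obtain ⟨u, hu, v, hv, huv⟩ := Finset.one_lt_card.1 hW1
  by_cases hdet : ∃ x ∈ W, (x.1 - u.1) * (v.2 - u.2) - (v.1 - u.1) * (x.2 - u.2) ≠ 0
  · left
    obtain ⟨x, hx, hD⟩ := hdet
    obtain ⟨q1, q2, a1, a2⟩ := red2 b h hD (hdiffH x hx u hu).1 (hdiffH x hx u hu).2
      (hdiffH v hv u hu).1 (hdiffH v hv u hu).2 (val p a) 1
    refine ⟨_, _, ?_, ?_, a1.trans (le_of_eq (by ring)), a2.trans (le_of_eq (by ring))⟩
    · exact ⟨-(q1 * (x.2 - u.2)) - q2 * (v.2 - u.2), by ring⟩
    · obtain ⟨c1, e1⟩ := hdiffL x hx u hu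
      obtain ⟨c2, e2⟩ := hdiffL v hv u hu
      exact ⟨-(p * q1 * c1) - p * q2 * c2, by linear_combination (-(p * q1)) * e1 - p * q2 * e2⟩
  · right
    push Not at hdet
    let L : Submodule ℤ (R × R) :=
      { carrier := {z | p ^ n ∣ z.1 - z.2 * val p a ∧ z.1 * (v.2 - u.2) - (v.1 - u.1) * z.2 = 0}
        add_mem' := by
          rintro z z' ⟨a1, a2⟩ ⟨a3, a4⟩
          refine ⟨?_, ?_⟩
          · convert dvd_add a1 a3 using 1
            simp only [Prod.fst_add, Prod.snd_add]; ring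
          · simp only [Prod.fst_add, Prod.snd_add]; linear_combination a2 + a4
        zero_mem' := by simp
        smul_mem' := by
          rintro c z ⟨a1, a2⟩
          refine ⟨?_, ?_⟩
          · convert dvd_mul_of_dvd_right a1 (c : R) using 1
            rw [Prod.smul_fst, Prod.smul_snd, zsmul_eq_mul, zsmul_eq_mul]; ring
          · rw [Prod.smul_fst, Prod.smul_snd, zsmul_eq_mul, zsmul_eq_mul]
            linear_combination (c : R) * a2 }
    have hj : ∃ j : L →ₗ[ℤ] R, Function.Injective j := by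
      by_cases h2 : v.2 - u.2 = 0
      · have h1 : v.1 - u.1 ≠ 0 := by
          intro h1
          exact huv (Prod.ext (sub_eq_zero.1 h1).symm (sub_eq_zero.1 h2).symm)
        refine ⟨(LinearMap.fst ℤ R R).comp L.subtype, ?_⟩
        rw [injective_iff_map_eq_zero]
        rintro ⟨z, a1, a2⟩ hz
        have hz1 : z.1 = 0 := hz
        rw [hz1, zero_mul, zero_sub, neg_eq_zero] at a2
        apply Subtype.ext
        exact Prod.ext hz1 ((mul_eq_zero.1 a2).resolve_left h1)
      · refine ⟨(LinearMap.snd ℤ R R).comp L.subtype, ?_⟩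
        rw [injective_iff_map_eq_zero]
        rintro ⟨z, a1, a2⟩ hz
        have hz1 : z.2 = 0 := hz
        rw [hz1, mul_zero, sub_zero] at a2
        apply Subtype.ext
        exact Prod.ext ((mul_eq_zero.1 a2).resolve_right h2) hz1
    obtain ⟨j, hj⟩ := hj
    let φ : W → L := fun x => ⟨x.1 - u, hdiffL x.1 x.2 u hu, hdet x.1 x.2⟩
    have hφ : Function.Injective φ := by
      intro x x' e
      have : x.1 - u = x'.1 - u := congrArg Subtype.val e
      exact Subtype.ext (sub_left_injective this)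
    obtain ⟨x, hx, x', hx', hne, z, hz⟩ := modk j hj b k hk (univ.map ⟨φ, hφ⟩) (by simpa using hy)
    obtain ⟨s, -, rfl⟩ := mem_map.1 hx
    obtain ⟨s', -, rfl⟩ := mem_map.1 hx'
    have hz' : s.1 - s'.1 = (k : ℤ) • z.1 := by
      have : (s.1 - u) - (s'.1 - u) = (k : ℤ) • z.1 := congrArg Subtype.val hz
      rw [← this]; abel
    have hz1 : (k : R) * z.1.1 = s.1.1 - s'.1.1 := by
      have := congrArg Prod.fst hz'
      simpa using this.symm
    have hz2 : (k : R) * z.1.2 = s.1.2 - s'.1.2 := by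
      have := congrArg Prod.snd hz'
      simpa using this.symm
    have hsm : ∀ x : R, H b ((k : R) * x) ≤ 2 * B → H b x ≤ 2 * B / k := by
      intro x hx
      rw [H_le_iff] at hx ⊢
      intro i
      have h1 := hx i
      have e : (k : R) * x = (k : ℤ) • x := by simp
      rw [e] at h1
      simp only [map_smul, Finsupp.smul_apply, smul_eq_mul, Int.natAbs_mul,
        Int.natAbs_natCast] at h1
      rw [Nat.le_div_iff_mul_le hk, mul_comm]
      exact h1
    refine ⟨z.1.1, z.1.2, ?_, hsm _ (hz1 ▸ (hdiffH _ s.2 _ s'.2).1),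
      hsm _ (hz2 ▸ (hdiffH _ s.2 _ s'.2).2), z.2.1⟩
    by_contra h0
    push Not at h0
    apply hne
    have : z = 0 := Subtype.ext (Prod.ext h0.1 h0.2)
    rw [this, smul_zero] at hz
    exact sub_eq_zero.1 hz

end Pool.Agent.H.MP_cc6759_lc
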