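import Pool.Agent.H.MP_cc6759_lc.B

set_option linter.dupNamespace false

namespace Pool.Agent.H.MP_cc6759_lc

open Finset Module

open Classical in
lemma layer {α : Type*} (s : Finset α) (f : α → ℝ) (c : ℝ) (hc : 0 ≤ c)
    (h : ∀ T : ℕ, 1 ≤ T → ((s.filter (fun a => (T : ℝ) < f a)).card : ℝ) ≤ c / (T : ℝ) ^ 2) :
    ∑ a ∈ s, f a ≤ s.card + 2 * c := by
  set L := s.sup (fun a => ⌈f a⌉₊) with hL
  have h1 : ∀ a ∈ s, f a ≤ ∑ T ∈ range L, (if (T : ℝ) < f a then (1 : ℝ) else 0) := by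
    intro a ha
    have hle : ⌈f a⌉₊ ≤ L := Finset.le_sup (f := fun a => ⌈f a⌉₊) ha
    calc f a ≤ (⌈f a⌉₊ : ℝ) := Nat.le_ceil _
      _ = ∑ T ∈ range ⌈f a⌉₊, (if (T : ℝ) < f a then (1 : ℝ) else 0) := by
          rw [sum_congr rfl (g := fun _ => (1 : ℝ))]
          · simp
          · intro T hT
            rw [if_pos (Nat.lt_ceil.1 (mem_range.1 hT))]
      _ ≤ _ := by
          apply sum_le_sum_of_subset_of_nonneg (range_subset_range.2 hle)
          intro i _ _
          split_ifs <;> norm_num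
  refine (sum_le_sum h1).trans ?_
  rw [sum_comm]
  have h2 : ∀ T : ℕ, ∑ a ∈ s, (if (T : ℝ) < f a then (1 : ℝ) else 0) =
      ((s.filter (fun a => (T : ℝ) < f a)).card : ℝ) := by
    intro T; simp
  simp only [h2]
  calc ∑ T ∈ range L, ((s.filter (fun a => (T : ℝ) < f a)).card : ℝ)
      ≤ ∑ T ∈ insert 0 (Ioo 0 L), ((s.filter (fun a => (T : ℝ) < f a)).card : ℝ) := by
        apply sum_le_sum_of_subset_of_nonneg
        · intro T hT
          rw [mem_range] at hT
          rw [mem_insert, mem_Ioo]; omega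
        · intro i _ _; positivity
    _ ≤ s.card + ∑ T ∈ Ioo 0 L, c * ((T : ℝ) ^ 2)⁻¹ := by
        rw [sum_insert (by simp)]
        refine add_le_add (by exact_mod_cast card_filter_le _ _) (sum_le_sum fun T hT => ?_)
        rw [← div_eq_mul_inv]
        exact h T (mem_Ioo.1 hT).1
    _ ≤ _ := by
        rw [← mul_sum]
        have := sum_Ioo_inv_sq_le (α := ℝ) 0 L
        simp only [Nat.cast_zero, zero_add, div_one] at this
        nlinarith

variable {R : Type*} [CommRing R] {d : ℕ} (b : Basis (Fin d) ℤ R)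

/-- admissible pairs -/
def Adm (p : R) {N n : ℕ} (a : Fin n → Fin N) (f g : R) : Prop :=
  (∃ h, p ∣ g * h - 1) ∧ p ^ n ∣ f - g * val p a

/-- least height of an admissible pair -/
noncomputable def mu (p : R) {N n : ℕ} (a : Fin n → Fin N) : ℕ :=
  sInf {m | ∃ f g, Adm p a f g ∧ m = max (H b f) (H b g)}

lemma mu_spec (p : R) {N n : ℕ} (a : Fin n → Fin N) :
    ∃ f g, Adm p a f g ∧ mu b p a = max (H b f) (H b g) :=
  Nat.sInf_mem (s := {m | ∃ f g, Adm p a f g ∧ m = max (H b f) (H b g)})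
    ⟨_, val p a, 1, ⟨⟨1, by simp⟩, by simp⟩, rfl⟩

lemma mu_le (p : R) {N n : ℕ} (a : Fin n → Fin N) {f g : R} (h : Adm p a f g) :
    mu b p a ≤ max (H b f) (H b g) := Nat.sInf_le ⟨f, g, h, rfl⟩

lemma adm_ne {p : R} {N K n : ℕ} (h : Hyp b p N K) (hN : 2 ≤ N) {a : Fin n → Fin N} {f g : R}
    (ha : Adm p a f g) : g ≠ 0 := by
  rintro rfl
  obtain ⟨⟨x, hx⟩, -⟩ := ha
  have := h.hdiv (-1) (by simpa using hx)
  have := Int.le_of_dvd (by norm_num) ((dvd_neg).1 this)
  omega

lemma mu_pos {p : R} {N K n : ℕ} (h : Hyp b p N K) (hN : 2 ≤ N) (a : Fin n → Fin N) :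
    1 ≤ mu b p a := by
  obtain ⟨f, g, h1, h2⟩ := mu_spec b p a
  rw [h2]
  exact (H_pos b (adm_ne b h hN h1)).trans (le_max_right _ _)

lemma tail_aux (c ρ : ℝ) (hc : 1 ≤ c) (hρ : 0 ≤ ρ) (hd : 1 ≤ d) (T : ℕ) (hT : 1 ≤ T) (K B : ℕ)
    (hB : (B : ℝ) ≤ c * ρ / T) :
    ((((2 * K + 3) * B) ^ (2 * d) : ℕ) : ℝ) ≤ ((2 * K + 3) * c) ^ (2 * d) * ρ ^ (2 * d) / (T : ℝ) ^ 2 := by
  have hT' : (1 : ℝ) ≤ T := by exact_mod_cast hT
  push_cast
  calc ((2 * (K : ℝ) + 3) * B) ^ (2 * d) ≤ ((2 * (K : ℝ) + 3) * (c * ρ / T)) ^ (2 * d) := by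
        gcongr
    _ = ((2 * K + 3) * c) ^ (2 * d) * ρ ^ (2 * d) / (T : ℝ) ^ (2 * d) := by
        rw [← mul_pow, ← div_pow]; congr 1; ring
    _ ≤ _ := by
        apply div_le_div_of_nonneg_left (by positivity) (by positivity)
        exact pow_le_pow_right₀ hT' (by omega)

theorem core [IsDomain R] {p : R} {N K : ℕ} (h : Hyp b p N K) (hN : 2 ≤ N) (hd : 1 ≤ d) :
    ∃ C : ℝ, ∀ n : ℕ, ∑ a : Fin n → Fin N,
      |Real.log (mu b p a) - n * Real.log N / (2 * d)| ≤ C * (N : ℝ) ^ n := by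
  classical
  set C' : ℕ := 4 * K * K * H b p with hC'
  have hC1 : 1 ≤ C' := by
    have := H_pos b h.hp
    have := h.hK1
    have : 0 < 4 * K * K * H b p := by positivity
    omega
  have hC1' : (1 : ℝ) ≤ C' := by exact_mod_cast hC1
  refine ⟨2 * C' * (1 + 2 * ((2 * K + 3) * 4) ^ (2 * d)) + (1 + 2 * ((2 * K + 3) * 1) ^ (2 * d)),
    fun n => ?_⟩
  have hN' : (2 : ℝ) ≤ N := by exact_mod_cast hN
  have hd' : (1 : ℝ) ≤ d := by exact_mod_cast hd
  set ρ := Real.exp (n * Real.log N / (2 * d)) with hρ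
  have hρ1 : 1 ≤ ρ := Real.one_le_exp (by
    have := Real.log_nonneg (show (1 : ℝ) ≤ N by linarith)
    positivity)
  have hρM : ρ ^ (2 * d) = (N : ℝ) ^ n := by
    rw [hρ, ← Real.exp_nat_mul, ← Real.exp_log (show (0 : ℝ) < (N : ℝ) ^ n by positivity),
      Real.log_pow]
    congr 1
    push_cast
    field_simp
  have hcard : ((univ : Finset (Fin n → Fin N)).card : ℝ) = (N : ℝ) ^ n := by
    rw [card_univ, Fintype.card_pi]; simp
  have hX := layer (univ : Finset (Fin n → Fin N)) (fun a => (mu b p a : ℝ) / (2 * C' * ρ))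
    (((2 * K + 3) * 4) ^ (2 * d) * ρ ^ (2 * d)) (by positivity) (by
      intro T hT
      have hT' : (1 : ℝ) ≤ T := by exact_mod_cast hT
      set B := ⌈(T : ℝ) * ρ⌉₊ with hB
      have hB1 : (T : ℝ) * ρ ≤ B := Nat.le_ceil _
      have hTρ : 1 ≤ (T : ℝ) * ρ := by nlinarith
      have hB2 : (B : ℝ) ≤ 2 * (T * ρ) := by
        have := Nat.ceil_lt_add_one (show (0 : ℝ) ≤ T * ρ by linarith)
        linarith
      have hlt : N ^ n * (T ^ 2) ^ d < (2 * B + 1) ^ (2 * d) := by
        have : ((N ^ n * (T ^ 2) ^ d : ℕ) : ℝ) < (((2 * B + 1) ^ (2 * d) : ℕ) : ℝ) := by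
          push_cast
          rw [← hρM, ← pow_mul, ← mul_pow]
          apply pow_lt_pow_left₀ _ (by positivity) (by omega)
          nlinarith
        exact_mod_cast this
      refine le_trans ?_ (tail_aux 4 ρ (by norm_num) (by linarith) hd T hT K (2 * B / T ^ 2) ?_)
      · refine Nat.cast_le.2 (le_trans (card_le_card ?_) (card_bad b h (by omega) n _))
        intro a ha
        rw [mem_filter] at ha ⊢
        refine ⟨mem_univ _, ?_⟩
        rcases dichotomy b h a B (T ^ 2) (by positivity) hlt with ⟨f, g, h1, h2, h3, h4⟩ | h1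
        · exfalso
          have h5 := (mu_le b p a (f := f) (g := g) ⟨⟨1, by simpa using h1⟩, h2⟩).trans
            (max_le h3 h4)
          have h6 : (mu b p a : ℝ) ≤ C' * B := by exact_mod_cast h5
          have h7 := ha.2
          rw [lt_div_iff₀ (by positivity)] at h7
          nlinarith
        · exact h1
      · refine Nat.cast_div_le.trans ?_
        push_cast
        rw [div_le_div_iff₀ (by positivity) (by positivity)]
        nlinarith)
  have hY := layer (univ : Finset (Fin n → Fin N)) (fun a => ρ / (mu b p a : ℝ))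
    (((2 * K + 3) * 1) ^ (2 * d) * ρ ^ (2 * d)) (by positivity) (by
      intro T hT
      have hT' : (1 : ℝ) ≤ T := by exact_mod_cast hT
      refine le_trans ?_ (tail_aux 1 ρ (by norm_num) (by linarith) hd T hT K ⌊ρ / T⌋₊ ?_)
      · refine Nat.cast_le.2 (le_trans (card_le_card ?_) (card_bad b h (by omega) n _))
        intro a ha
        rw [mem_filter] at ha ⊢
        refine ⟨mem_univ _, ?_⟩
        obtain ⟨f, g, h1, h2⟩ := mu_spec b p a
        have hm : (1 : ℝ) ≤ mu b p a := by exact_mod_cast mu_pos b h hN a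
        have h3 : mu b p a ≤ ⌊ρ / T⌋₊ := by
          apply Nat.le_floor
          have h7 := ha.2
          rw [lt_div_iff₀ (by positivity)] at h7
          rw [le_div_iff₀ (by positivity)]
          linarith
        rw [h2] at h3
        exact ⟨f, g, Or.inr (adm_ne b h hN h1), (le_max_left _ _).trans h3,
          (le_max_right _ _).trans h3, h1.2⟩
      · rw [one_mul]
        exact Nat.floor_le (by positivity))
  rw [hcard, hρM] at hX hY
  calc ∑ a : Fin n → Fin N, |Real.log (mu b p a) - n * Real.log N / (2 * d)|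
      ≤ ∑ a : Fin n → Fin N, (2 * C' * ((mu b p a : ℝ) / (2 * C' * ρ)) + ρ / (mu b p a : ℝ)) := by
        refine sum_le_sum fun a _ => ?_
        have hm : (1 : ℝ) ≤ mu b p a := by exact_mod_cast mu_pos b h hN a
        have e : 2 * C' * ((mu b p a : ℝ) / (2 * C' * ρ)) = (mu b p a : ℝ) / ρ := by
          field_simp
        have e2 : n * Real.log N / (2 * d) = Real.log ρ := by rw [hρ, Real.log_exp]
        rw [e, e2, abs_le]
        have a1 := Real.log_le_sub_one_of_pos (show 0 < (mu b p a : ℝ) / ρ by positivity)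
        have a2 := Real.log_le_sub_one_of_pos (show 0 < ρ / (mu b p a : ℝ) by positivity)
        rw [Real.log_div (by positivity) (by positivity)] at a1 a2
        have a3 : 0 < (mu b p a : ℝ) / ρ := by positivity
        have a4 : 0 < ρ / (mu b p a : ℝ) := by positivity
        constructor <;> linarith
    _ = 2 * C' * (∑ a : Fin n → Fin N, (mu b p a : ℝ) / (2 * C' * ρ)) +
          ∑ a : Fin n → Fin N, ρ / (mu b p a : ℝ) := by
        rw [sum_add_distrib, ← mul_sum]
    _ ≤ 2 * C' * ((N : ℝ) ^ n + 2 * (((2 * K + 3) * 4) ^ (2 * d) * (N : ℝ) ^ n)) +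
          ((N : ℝ) ^ n + 2 * (((2 * K + 3) * 1) ^ (2 * d) * (N : ℝ) ^ n)) := by
        gcongr
    _ = _ := by ring

lemma log_max (x y : ℕ) : Real.log ((max x y : ℕ) : ℝ) = max (Real.log x) (Real.log y) := by
  have mono : ∀ u v : ℕ, u ≤ v → Real.log u ≤ Real.log v := by
    intro u v huv
    rcases Nat.eq_zero_or_pos u with rfl | hu
    · simpa using Real.log_natCast_nonneg v
    · exact Real.log_le_log (by exact_mod_cast hu) (by exact_mod_cast huv)
  rcases le_total x y with h | h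
  · rw [max_eq_right h, max_eq_right (mono _ _ h)]
  · rw [max_eq_left h, max_eq_left (mono _ _ h)]

theorem main [IsDomain R] {p : R} {N K : ℕ} (h : Hyp b p N K) (hN : 2 ≤ N) (hd : 1 ≤ d)
    (φ : R → ℝ) (c0 : ℝ) (h1 : ∀ x, d * Real.log (H b x) / Real.log N ≤ φ x)
    (h2 : ∀ x, φ x ≤ d * Real.log (H b x) / Real.log N + c0) :
    ∃ C : ℝ, ∀ n : ℕ, |(∑ a : Fin n → Fin N,
      sInf {t : ℝ | ∃ f g, Adm p a f g ∧ t = max (φ f) (φ g)}) / (N : ℝ) ^ n - (n : ℝ) / 2| ≤ C := by
  obtain ⟨C, hC⟩ := core b h hN hd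
  have hN' : (2 : ℝ) ≤ N := by exact_mod_cast hN
  have hd' : (1 : ℝ) ≤ d := by exact_mod_cast hd
  have hl : 0 < Real.log N := Real.log_pos (by linarith)
  have hc0 : 0 ≤ c0 := by linarith [h1 0, h2 0]
  refine ⟨d / Real.log N * C + c0, fun n => ?_⟩
  have hM : (0 : ℝ) < (N : ℝ) ^ n := by positivity
  have hcard : ((univ : Finset (Fin n → Fin N)).card : ℝ) = (N : ℝ) ^ n := by
    rw [card_univ, Fintype.card_pi]; simp
  have hpt : ∀ a : Fin n → Fin N,
      |sInf {t : ℝ | ∃ f g, Adm p a f g ∧ t = max (φ f) (φ g)} - (n : ℝ) / 2| ≤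
        d / Real.log N * |Real.log (mu b p a) - n * Real.log N / (2 * d)| + c0 := by
    intro a
    have hlow : ∀ t ∈ {t : ℝ | ∃ f g, Adm p a f g ∧ t = max (φ f) (φ g)},
        d * Real.log (mu b p a) / Real.log N ≤ t := by
      rintro t ⟨f, g, hfg, rfl⟩
      have hm : (1 : ℝ) ≤ mu b p a := by exact_mod_cast mu_pos b h hN a
      have a1 : Real.log (mu b p a) ≤ max (Real.log (H b f)) (Real.log (H b g)) := by
        rw [← log_max]
        exact Real.log_le_log (by linarith) (by exact_mod_cast mu_le b p a hfg)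
      rcases le_max_iff.1 a1 with a2 | a2
      · refine le_trans ?_ ((h1 f).trans (le_max_left _ _))
        gcongr
      · refine le_trans ?_ ((h1 g).trans (le_max_right _ _))
        gcongr
    obtain ⟨f, g, hfg, e⟩ := mu_spec b p a
    have a1 : d * Real.log (mu b p a) / Real.log N ≤
        sInf {t : ℝ | ∃ f g, Adm p a f g ∧ t = max (φ f) (φ g)} :=
      le_csInf ⟨_, f, g, hfg, rfl⟩ hlow
    have a2 : sInf {t : ℝ | ∃ f g, Adm p a f g ∧ t = max (φ f) (φ g)} ≤
        d * Real.log (mu b p a) / Real.log N + c0 := by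
      refine (csInf_le ⟨_, hlow⟩ ⟨f, g, hfg, rfl⟩).trans (max_le ?_ ?_)
      · refine (h2 f).trans ?_
        rw [e, log_max]
        gcongr
        exact le_max_left _ _
      · refine (h2 g).trans ?_
        rw [e, log_max]
        gcongr
        exact le_max_right _ _
    have a3 : d / Real.log N * |Real.log (mu b p a) - n * Real.log N / (2 * d)| =
        |d * Real.log (mu b p a) / Real.log N - (n : ℝ) / 2| := by
      rw [← abs_of_pos (show 0 < d / Real.log N by positivity), ← abs_mul]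
      congr 1
      field_simp
    rw [a3, abs_le]
    have a4 := le_abs_self (d * Real.log (mu b p a) / Real.log N - (n : ℝ) / 2)
    have a5 := neg_abs_le (d * Real.log (mu b p a) / Real.log N - (n : ℝ) / 2)
    constructor <;> linarith
  have e : (∑ a : Fin n → Fin N,
      sInf {t : ℝ | ∃ f g, Adm p a f g ∧ t = max (φ f) (φ g)}) / (N : ℝ) ^ n - (n : ℝ) / 2 =
      (∑ a : Fin n → Fin N,
      (sInf {t : ℝ | ∃ f g, Adm p a f g ∧ t = max (φ f) (φ g)} - (n : ℝ) / 2)) / (N : ℝ) ^ n := by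
    rw [sum_sub_distrib, sum_const, nsmul_eq_mul, hcard]
    field_simp
  rw [e, abs_div, abs_of_pos hM, div_le_iff₀ hM]
  refine (abs_sum_le_sum_abs _ _).trans ((sum_le_sum fun a _ => hpt a).trans ?_)
  rw [sum_add_distrib, ← mul_sum, sum_const, nsmul_eq_mul, hcard]
  have := mul_le_mul_of_nonneg_left (hC n) (show 0 ≤ d / Real.log N by positivity)
  nlinarith

end Pool.Agent.H.MP_cc6759_lc
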