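import Pool.Agent.H.MP_cc6759_lc.C

set_option linter.dupNamespace false

namespace Pool.Agent.H.MP_cc6759_lc

open Finset Module

variable {R : Type*} [CommRing R] {d : ℕ} (b : Basis (Fin d) ℤ R)

lemma hyp_of {p : R} {N : ℕ} (hN : 2 ≤ N) (hd : 1 ≤ d) (hb : ∀ i, b i = p ^ (i : ℕ))
    (c : ℤ) (hc : c.natAbs = N) (hp : p ^ d = (c : R)) : ∃ K, Hyp b p N K := by
  obtain ⟨K, hK1, hK⟩ := exists_K b
  let o : Fin d := ⟨0, hd⟩
  have hint : ∀ m : ℤ, b.repr (m : R) o = m := by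
    intro m
    have : (m : R) = m • b o := by rw [hb]; simp [o]
    rw [this, map_smul, b.repr_self]; simp
  have hNc : (N : ℤ) ∣ c := by rw [← hc]; exact Int.natAbs_dvd.2 dvd_rfl
  have hcN : c ∣ (N : ℤ) := by rw [← hc]; exact Int.dvd_natAbs.2 dvd_rfl
  refine ⟨K, ?_, ?_, ?_, hK1, hK⟩
  · rintro rfl
    have := hint c
    rw [← hp, zero_pow (by omega)] at this
    simp only [map_zero, Finsupp.zero_apply] at this
    omega
  · rintro m ⟨y, hy⟩
    rw [← hint m, hy, ← b.sum_repr y, mul_sum, map_sum, Finsupp.finsetSum_apply]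
    refine dvd_sum fun i _ => ?_
    rw [mul_smul_comm, map_smul, Finsupp.smul_apply, smul_eq_mul]
    refine dvd_mul_of_dvd_right ?_ _
    rw [hb, ← pow_succ']
    by_cases hi : (i : ℕ) + 1 < d
    · rw [← hb ⟨i + 1, hi⟩, b.repr_self, Finsupp.single_eq_of_ne (by simp [o, Fin.ext_iff])]
      exact dvd_zero _
    · have : (i : ℕ) + 1 = d := by have := i.2; omega
      rw [this, hp, hint]
      exact hNc
  · intro x
    have h1 : p ∣ x - ((b.repr x o : ℤ) : R) := by
      have e : x - ((b.repr x o : ℤ) : R) = ∑ i ∈ univ.erase o, b.repr x i • b i := by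
        conv_lhs => rw [← b.sum_repr x]
        rw [b.repr_sum_self, ← Finset.sum_erase_add _ _ (mem_univ o), hb o]
        simp [o]
      rw [e]
      refine dvd_sum fun i hi => ?_
      rw [hb, zsmul_eq_mul]
      refine dvd_mul_of_dvd_right (dvd_pow_self p ?_) _
      intro h0
      exact (mem_erase.1 hi).1 (Fin.ext h0)
    have h2 : p ∣ (N : R) := by
      obtain ⟨e, he⟩ := hcN
      have : (N : R) = p ^ d * e := by rw [hp]; exact_mod_cast congrArg (Int.cast : ℤ → R) he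
      rw [this]
      exact dvd_mul_of_dvd_left (dvd_pow_self p (by omega)) _
    have a1 := Int.emod_nonneg (b.repr x o) (show (N : ℤ) ≠ 0 by omega)
    have a2 := Int.emod_lt_of_pos (b.repr x o) (show (0 : ℤ) < N by omega)
    refine ⟨⟨(b.repr x o % N).toNat, by omega⟩, ?_⟩
    have a3 : (((b.repr x o % N).toNat : ℕ) : R) = ((b.repr x o % N : ℤ) : R) := by
      rw [← Int.cast_natCast, Int.toNat_of_nonneg a1]
    have a4 : ((b.repr x o : ℤ) : R) = N * ((b.repr x o / N : ℤ) : R) + ((b.repr x o % N : ℤ) : R) := by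
      exact_mod_cast congrArg (Int.cast : ℤ → R) (Int.mul_ediv_add_emod (b.repr x o) N).symm
    simp only [a3]
    convert dvd_add h1 (dvd_mul_of_dvd_left h2 ((b.repr x o / N : ℤ) : R)) using 1
    linear_combination a4

lemma adm_iff [IsDomain R] {p : R} {N K n : ℕ} (h : Hyp b p N K) (a : Fin n → Fin N) (f g : R) :
    (∃ s : ℕ → Fin N, (∃ x, p ∣ g * x - 1) ∧
      (∀ k, p ^ k ∣ f - g * ∑ i ∈ range k, ((s i : ℕ) : R) * p ^ i) ∧ ∀ i : Fin n, s i = a i) ↔
      Adm p a f g := by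
  constructor
  · rintro ⟨s, h1, h2, h3⟩
    refine ⟨h1, ?_⟩
    have := h2 n
    rw [Finset.sum_range] at this
    simpa only [val, h3] using this
  · rintro ⟨⟨x, t, hx⟩, h2⟩
    have hstep : ∀ r : R, ∃ (c : Fin N) (r' : R), r - g * ((c : ℕ) : R) = p * r' := by
      intro r
      obtain ⟨c, y, hy⟩ := h.hres (r * x)
      exact ⟨c, g * y - r * t, by linear_combination g * hy - r * hx⟩
    choose c nx hnx using hstep
    have hall : ∀ k, f - g * ∑ i ∈ range k, ((c (nx^[i] f) : ℕ) : R) * p ^ i = p ^ k * nx^[k] f := by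
      intro k
      induction k with
      | zero => simp
      | succ k ih =>
        rw [sum_range_succ, Function.iterate_succ_apply', pow_succ]
        linear_combination ih + p ^ k * hnx (nx^[k] f)
    refine ⟨fun i => c (nx^[i] f), ⟨x, t, hx⟩, fun k => ⟨_, hall k⟩, ?_⟩
    have hco : IsCoprime (p ^ n) g := IsCoprime.pow_left ⟨-t, x, by linear_combination hx⟩
    have := val_inj h.hp h.hdiv (fun i : Fin n => c (nx^[i] f)) a (by
      apply hco.dvd_of_dvd_mul_left
      have h3 : p ^ n ∣ f - g * val p (fun i : Fin n => c (nx^[i] f)) := by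
        have := hall n
        rw [Finset.sum_range] at this
        exact ⟨_, this⟩
      convert dvd_sub h2 h3 using 1
      ring)
    exact fun i => congrFun this i

lemma exists_H (hd : 1 ≤ d) (x : R) : ∃ i, H b x = (b.repr x i).natAbs := by
  obtain ⟨i, -, hi⟩ := Finset.exists_mem_eq_sup (univ : Finset (Fin d)) ⟨⟨0, hd⟩, mem_univ _⟩
    (fun i => (b.repr x i).natAbs)
  exact ⟨i, hi⟩

lemma size2 {N : ℕ} (hN : 2 ≤ N) (hd : 1 ≤ d) (x : R) :
    d * Real.log (H b x) / Real.log N ≤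
      (⨆ i : {i : Fin d // b.repr x i ≠ 0}, (d * Real.logb N |(b.repr x i : ℝ)| + (i.1 : ℕ))) ∧
    (⨆ i : {i : Fin d // b.repr x i ≠ 0}, (d * Real.logb N |(b.repr x i : ℝ)| + (i.1 : ℕ))) ≤
      d * Real.log (H b x) / Real.log N + d := by
  have hN' : (2 : ℝ) ≤ N := by exact_mod_cast hN
  have hl : 0 < Real.log N := Real.log_pos (by linarith)
  have hcast : ∀ m : ℤ, |(m : ℝ)| = (m.natAbs : ℝ) := by
    intro m; rw [Nat.cast_natAbs]; push_cast; rfl
  have hH := Real.log_natCast_nonneg (H b x)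
  constructor
  · obtain ⟨i, hi⟩ := exists_H b hd x
    by_cases h0 : b.repr x i = 0
    · rw [hi, h0]
      simp only [Int.natAbs_zero, Nat.cast_zero, Real.log_zero, mul_zero, zero_div]
      apply Real.iSup_nonneg
      intro j
      have := Real.log_natCast_nonneg (b.repr x j).natAbs
      rw [hcast, Real.logb]
      positivity
    · refine le_trans ?_ (le_ciSup (Finite.bddAbove_range _) ⟨i, h0⟩)
      simp only
      rw [hcast, ← hi, Real.logb, mul_div_assoc]
      exact le_add_of_nonneg_right (by positivity)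
  · refine Real.iSup_le (fun j => ?_) (by positivity)
    rw [hcast, Real.logb, mul_div_assoc]
    have a1 : (1 : ℝ) ≤ (b.repr x j).natAbs := by
      have := j.2
      exact_mod_cast (show 1 ≤ (b.repr x j).natAbs by omega)
    have a2 : ((b.repr x j).natAbs : ℝ) ≤ H b x := by exact_mod_cast le_H b x j
    have a3 : ((j.1 : ℕ) : ℝ) ≤ d := by exact_mod_cast j.1.2.le
    gcongr

lemma size1 (b : Basis (Fin 2) ℤ R) {N : ℕ} (hN : 2 ≤ N) (x : R) :
    (2 : ℕ) * Real.log (H b x) / Real.log N ≤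
      Real.logb N ((b.repr x 0 : ℝ) ^ 2 + N * (b.repr x 1 : ℝ) ^ 2) ∧
    Real.logb N ((b.repr x 0 : ℝ) ^ 2 + N * (b.repr x 1 : ℝ) ^ 2) ≤
      (2 : ℕ) * Real.log (H b x) / Real.log N + 2 := by
  have hN' : (2 : ℝ) ≤ N := by exact_mod_cast hN
  have hl : 0 < Real.log N := Real.log_pos (by linarith)
  have hcast : ∀ m : ℤ, (m : ℝ) ^ 2 = (m.natAbs : ℝ) ^ 2 := by
    intro m; rw [Nat.cast_natAbs]; push_cast; rw [sq_abs]
  by_cases h0 : x = 0
  · subst h0
    simp [H_zero]
  have hH : (1 : ℝ) ≤ H b x := by exact_mod_cast H_pos b h0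
  have a0 : ((b.repr x 0).natAbs : ℝ) ≤ H b x := by exact_mod_cast le_H b x 0
  have a1 : ((b.repr x 1).natAbs : ℝ) ≤ H b x := by exact_mod_cast le_H b x 1
  have b0 : (0 : ℝ) ≤ (b.repr x 0).natAbs := by positivity
  have b1 : (0 : ℝ) ≤ (b.repr x 1).natAbs := by positivity
  have low : (H b x : ℝ) ^ 2 ≤ (b.repr x 0 : ℝ) ^ 2 + N * (b.repr x 1 : ℝ) ^ 2 := by
    obtain ⟨i, hi⟩ := exists_H b (by norm_num) x
    rw [hcast, hcast, hi]
    fin_cases i
    · simp only [Fin.zero_eta]; nlinarith [sq_nonneg ((b.repr x 1).natAbs : ℝ)]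
    · simp only [Fin.mk_one]
      nlinarith [sq_nonneg ((b.repr x 1).natAbs : ℝ), sq_nonneg ((b.repr x 0).natAbs : ℝ)]
  have up : (b.repr x 0 : ℝ) ^ 2 + N * (b.repr x 1 : ℝ) ^ 2 ≤ (H b x : ℝ) ^ 2 * (N : ℝ) ^ 2 := by
    rw [hcast, hcast]
    have c0 : ((b.repr x 0).natAbs : ℝ) ^ 2 ≤ (H b x : ℝ) ^ 2 := by gcongr
    have c1 : ((b.repr x 1).natAbs : ℝ) ^ 2 ≤ (H b x : ℝ) ^ 2 := by gcongr
    have c2 : (N : ℝ) * ((b.repr x 1).natAbs : ℝ) ^ 2 ≤ N * (H b x : ℝ) ^ 2 := by gcongr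
    have c3 : (1 + N : ℝ) ≤ (N : ℝ) ^ 2 := by nlinarith
    have c4 : (H b x : ℝ) ^ 2 * (1 + N) ≤ (H b x : ℝ) ^ 2 * (N : ℝ) ^ 2 := by gcongr
    nlinarith
  have hpos : (0 : ℝ) < (H b x : ℝ) ^ 2 := by positivity
  rw [Real.logb]
  constructor
  · rw [← Real.log_pow]
    gcongr
  · have := Real.log_le_log (hpos.trans_le low) up
    rw [Real.log_mul (by positivity) (by positivity), Real.log_pow, Real.log_pow] at this
    rw [div_add' _ _ _ hl.ne']
    gcongr
    push_cast at this ⊢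
    linarith

end Pool.Agent.H.MP_cc6759_lc
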